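import Pool.Agent.H11.GMk

set_option autoImplicit false

namespace Pool.Agent.Results.MP_65ccf5_lc.CoNPHard
open Pool.Agent.H11.PT

/-- every induced subgraph `G[W]` has a 2-colouring in which no inclusion-maximal clique of `G[W]`
with at least two vertices is monochromatic -/
def Strongly2Div {V : Type} (G : SimpleGraph V) : Prop :=
  ∀ W : Set V, ∃ κ : V → Bool, ∀ C : Set V, Maximal (fun D : Set V => D ⊆ W ∧ G.IsClique D) C →
    C.Nontrivial → ¬ ∃ b, ∀ v ∈ C, κ v = b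

abbrev Pt := ℕ × ℕ × ℕ × Bool
abbrev Ed := Pt × Pt × Pt
abbrev V := ℕ × Ed
def o : Pt := (0, 0, 0, false)

def HB (E : List Ed) : Prop := ∀ K : Set Pt, ∃ κ : Pt → Bool, ∀ e ∈ E, e.2.2 ∈ K →
  (e.1 ∈ K ∨ e.2.1 ∈ K) → (e.1 ∈ K ∧ κ e.1 ≠ κ e.2.2) ∨ (e.2.1 ∈ K ∧ κ e.2.1 ≠ κ e.2.2)

def adj (v w : V) : Bool := decide ((v.1 = 0 ∧ w.1 = 0) ∨ 
  (v.1 = 1 ∧ w.1 = 2 ∧ v.2.1 = w.2.1 ∧ v.2.2.1 = w.2.2.1 ∧ v.2.2.2 = w.2.2.2) ∨
  (v.1 = 1 ∧ w.1 = 0 ∧ (w.2.1 = v.2.1 ∨ w.2.1 = v.2.2.1)) ∨ (v.1 = 2 ∧ w.1 = 0 ∧ w.2.1 = v.2.2.2))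

def vs (B : List Pt) (E : List Ed) : List V := (List.range 3 ×ˢ B ×ˢ B ×ˢ B).filter fun v =>
  decide ((v.1 = 0 ∧ v.2.2.1 = o ∧ v.2.2.2 = o) ∨ (¬ v.1 = 0 ∧ v.2 ∈ E))

def AJ (v w : V) : Prop := v ≠ w ∧ (adj v w = true ∨ adj w v = true)

theorem b3 {a b c : Bool} (h : a ≠ c) (h' : b ≠ c) : a = b := by
  revert h h'; cases a <;> cases b <;> cases c <;> simp

theorem L1 {x y z : Pt} {k : V} (h1 : x ≠ z) (h2 : y ≠ z) (a : AJ (1, x, y, z) k)
    (b : AJ (2, x, y, z) k) : False := by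
  simp only [AJ, adj, decide_eq_true_eq] at a b; grind

theorem L2 {x y z : Pt} {k : V} (h1 : x ≠ z) (h2 : y ≠ z) (a : AJ (2, x, y, z) k)
    (b : AJ (0, z, o, o) k) (c : k.1 = 0 → k = (0, k.2.1, o, o)) : False := by
  simp only [AJ, adj, decide_eq_true_eq] at a b; grind

theorem L3 {x y z : Pt} {k r : V} (h1 : x ≠ z) (h2 : y ≠ z) (a : AJ (1, x, y, z) k)
    (b : AJ r k) (c : r.1 = 0) (d : r.2.1 = x ∨ r.2.1 = y) : k.1 = 0 ∧ (k.2.1 = x ∨ k.2.1 = y) := by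
  simp only [AJ, adj, decide_eq_true_eq] at a b; grind

theorem L4 {x y z : Pt} {r : V} (c : r.1 = 0) (d : r.2.1 = x ∨ r.2.1 = y) : AJ (1, x, y, z) r := by
  simp only [AJ, adj, decide_eq_true_eq]; grind

theorem L5 {x : Pt} {r : V} (c : r.1 = 0 ∨ (r.1 = 1 ∧ (x = r.2.1 ∨ x = r.2.2.1)))
    (d : (0, x, o, o) ≠ r) : AJ (0, x, o, o) r := by
  simp only [AJ, adj, decide_eq_true_eq]; grind

theorem L6 {k i : V} (a : AJ k i) (c : i.1 ≠ 0) : (k.1 = 0 ∧ ((i.1 = 1 ∧ (k.2.1 = i.2.1 ∨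
    k.2.1 = i.2.2.1)) ∨ (i.1 = 2 ∧ k.2.1 = i.2.2.2))) ∨
    (k.2 = i.2 ∧ ((k.1 = 1 ∧ i.1 = 2) ∨ (k.1 = 2 ∧ i.1 = 1))) := by
  obtain ⟨_, _, _, _⟩ := k
  obtain ⟨_, _, _, _⟩ := i
  simp only [AJ, adj, decide_eq_true_eq, Prod.mk.injEq] at a ⊢; grind

theorem graph (B : List Pt) (E : List Ed) (nd : B.Nodup) (ho : o ∈ B)
    (hE : ∀ e ∈ E, e.1 ∈ B ∧ e.2.1 ∈ B ∧ e.2.2 ∈ B ∧ e.1 ≠ e.2.2 ∧ e.2.1 ≠ e.2.2) :
    Strongly2Div (gr (vs B E).length (mkE (vs B E) adj)) ↔ HB E := by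
  classical
  obtain ⟨p, pi, pm, -, pa⟩ := mkE_spec (vs B E)
    ((List.nodup_range.product (nd.product (nd.product nd))).filter _) adj
  set G := gr (vs B E).length (mkE (vs B E) adj)
  have hm : ∀ k x y z, (∃ i, p i = (k, x, y, z)) ↔ (k = 0 ∧ x ∈ B ∧ y = o ∧ z = o) ∨
      ((k = 1 ∨ k = 2) ∧ (x, y, z) ∈ E) := by
    intro k x y z
    rw [← pm]
    simp only [vs, List.mem_filter, List.mem_product, List.mem_range, decide_eq_true_eq]
    constructor
    · rintro ⟨⟨h1, h2, -⟩, h | h⟩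
      · exact Or.inl ⟨h.1, h2, h.2⟩
      · exact Or.inr ⟨by omega, h.2⟩
    · rintro (⟨rfl, h, rfl, rfl⟩ | ⟨h, h'⟩)
      · simp [h, ho]
      · have := hE _ h'
        exact ⟨⟨by omega, this.1, this.2.1, this.2.2.1⟩, Or.inr ⟨by omega, h'⟩⟩
  have hk : ∀ i, ((p i).1 = 0 ∧ p i = (0, (p i).2.1, o, o)) ∨
      (((p i).1 = 1 ∨ (p i).1 = 2) ∧ (p i).2 ∈ E) := by
    intro i
    rcases (hm (p i).1 (p i).2.1 (p i).2.2.1 (p i).2.2.2).1 ⟨i, rfl⟩ with h | h
    · exact Or.inl ⟨h.1, Prod.ext h.1 (Prod.ext rfl (Prod.ext h.2.2.1 h.2.2.2))⟩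
    · exact Or.inr h
  replace pa : ∀ i j, G.Adj i j ↔ AJ (p i) (p j) := pa
  clear_value G
  constructor
  · intro H K
    obtain ⟨col, hc⟩ := H {i | (p i).1 ≠ 0 ∨ (p i).2.1 ∈ K}
    have NM : ∀ i j, ((p i).1 ≠ 0 ∨ (p i).2.1 ∈ K) → ((p j).1 ≠ 0 ∨ (p j).2.1 ∈ K) → G.Adj i j →
        ∃ k, ((p k).1 ≠ 0 ∨ (p k).2.1 ∈ K) ∧ G.Adj i k ∧ (k = j ∨ G.Adj j k) ∧ col k ≠ col i := by
      intro i j hi hj h
      obtain ⟨C, h1, h2⟩ := Finite.exists_le_maximal (p := fun D => D ⊆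
        {i | (p i).1 ≠ 0 ∨ (p i).2.1 ∈ K} ∧ G.IsClique D) (a := {i, j})
        ⟨by rintro _ (rfl | rfl) <;> assumption, by simpa using fun _ => h⟩
      have a : i ∈ C := h1 (by simp)
      have b : j ∈ C := h1 (by simp)
      have := hc C h2 ⟨i, a, j, b, h.ne⟩
      push Not at this
      obtain ⟨k, c, d⟩ := this (col i)
      refine ⟨k, h2.prop.1 c, h2.prop.2 a c (by rintro rfl; exact d rfl), ?_, d⟩
      by_cases e : k = j
      · exact Or.inl e
      · exact Or.inr (h2.prop.2 b c (Ne.symm e))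
    let κ : Pt → Bool := fun x => if h : ∃ i, p i = (0, x, o, o) then col h.choose else false
    have hκ : ∀ i, (p i).1 = 0 → κ (p i).2.1 = col i := by
      intro i h
      have e : p i = (0, (p i).2.1, o, o) := ((hk i).resolve_right (by omega)).2
      have h : ∃ j, p j = (0, (p i).2.1, o, o) := ⟨i, e⟩
      simp only [κ, dif_pos h]
      rw [pi (h.choose_spec.trans e.symm)]
    refine ⟨κ, fun ⟨x, y, z⟩ he hz hxy => ?_⟩
    obtain ⟨e1, e2, e3, e4, e5⟩ := hE _ he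
    dsimp only at *
    obtain ⟨a, ha⟩ := (hm 1 x y z).2 (Or.inr ⟨by omega, he⟩)
    obtain ⟨b, hb⟩ := (hm 2 x y z).2 (Or.inr ⟨by omega, he⟩)
    obtain ⟨q, hq⟩ := (hm 0 z o o).2 (Or.inl ⟨rfl, e3, rfl, rfl⟩)
    have k1 : col b ≠ col a := by
      obtain ⟨k, -, c1, rfl | c2, c3⟩ := NM a b (by simp [ha]) (by simp [hb]) (by simp [pa, ha, hb, AJ, adj])
      · exact c3
      · simp only [pa, ha, hb] at c1 c2
        exact (L1 e4 e5 c1 c2).elim
    have k2 : col q ≠ col b := by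
      obtain ⟨k, -, c1, rfl | c2, c3⟩ := NM b q (by simp [hb]) (by simp [hq, hz])
        (by simp [pa, hq, hb, AJ, adj])
      · exact c3
      · simp only [pa, hq, hb] at c1 c2
        exact (L2 e4 e5 c1 c2 fun h => ((hk k).resolve_right (by omega)).2).elim
    have k3 : κ z = col a := by
      have := hκ q (by simp [hq])
      simp only [hq] at this
      rw [this]; exact b3 k2 k1.symm
    obtain ⟨r, r1, r2, r3⟩ : ∃ r, (p r).1 = 0 ∧ (p r).2.1 ∈ K ∧ ((p r).2.1 = x ∨ (p r).2.1 = y) := by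
      rcases hxy with h | h
      · obtain ⟨r, hr⟩ := (hm 0 x o o).2 (Or.inl ⟨rfl, e1, rfl, rfl⟩)
        exact ⟨r, by simp [hr, h]⟩
      · obtain ⟨r, hr⟩ := (hm 0 y o o).2 (Or.inl ⟨rfl, e2, rfl, rfl⟩)
        exact ⟨r, by simp [hr, h]⟩
    obtain ⟨k, c0, c1, c2, c3⟩ := NM a r (by simp [ha]) (Or.inr r2) (by
      simp only [pa, ha]; exact L4 r1 r3)
    have k4 : (p k).1 = 0 ∧ ((p k).2.1 = x ∨ (p k).2.1 = y) := by
      rcases c2 with rfl | c2
      · exact ⟨r1, r3⟩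
      · simp only [pa, ha] at c1 c2
        exact L3 e4 e5 c1 c2 r1 r3
    have k5 := hκ k k4.1
    have k6 := c0.resolve_left (by simp [k4.1])
    rw [k3]
    rcases k4.2 with h | h <;> rw [h] at k5 k6
    · exact Or.inl ⟨k6, k5 ▸ c3⟩
    · exact Or.inr ⟨k6, k5 ▸ c3⟩
  · intro H W
    let K : Set Pt := {x | ∃ i ∈ W, p i = (0, x, o, o)}
    obtain ⟨κ, h1, h2⟩ : ∃ κ : Pt → Bool, (∀ e ∈ E, e.2.2 ∈ K → (e.1 ∈ K ∨ e.2.1 ∈ K) →
        (e.1 ∈ K ∧ κ e.1 ≠ κ e.2.2) ∨ (e.2.1 ∈ K ∧ κ e.2.1 ≠ κ e.2.2)) ∧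
        ∀ x ∈ K, ∀ y ∈ K, x ≠ y → ∀ b, ∃ z ∈ K, κ z ≠ b := by
      obtain ⟨κ, h⟩ := H K
      by_cases c : ∃ x ∈ K, ∃ y ∈ K, κ x ≠ κ y
      · obtain ⟨x, hx, y, hy, c⟩ := c
        refine ⟨κ, h, fun _ _ _ _ _ b => ?_⟩
        by_cases e : κ x = b
        · exact ⟨y, hy, fun e' => c (e.trans e'.symm)⟩
        · exact ⟨x, hx, e⟩
      · by_cases d : ∃ x, x ∈ K
        · obtain ⟨x, hx⟩ := d
          refine ⟨fun z => decide (z = x), fun e he a b => ?_, fun y hy z hz n b => ?_⟩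
          · rcases h e he a b with t | t
            · exact absurd ⟨_, t.1, _, a, t.2⟩ c
            · exact absurd ⟨_, t.1, _, a, t.2⟩ c
          · cases b
            · exact ⟨x, hx, by simp⟩
            · by_cases e : y = x
              · exact ⟨z, hz, by simpa [← e] using n.symm⟩
              · exact ⟨y, hy, by simp [e]⟩
        · exact ⟨κ, h, fun x hx => absurd ⟨x, hx⟩ d⟩
    have h3 : ∀ e : Ed, ∃ b : Bool, e ∈ E → (e.2.2 ∈ K → κ e.2.2 = b) ∧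
        ((e.1 ∈ K ∨ e.2.1 ∈ K) → (e.1 ∈ K ∧ κ e.1 ≠ b) ∨ (e.2.1 ∈ K ∧ κ e.2.1 ≠ b)) := by
      intro e
      by_cases c : e.2.2 ∈ K
      · exact ⟨κ e.2.2, fun he => ⟨fun _ => rfl, h1 e he c⟩⟩
      · by_cases d : e.1 ∈ K
        · exact ⟨!κ e.1, fun _ => by simp [c, d]⟩
        · exact ⟨!κ e.2.1, fun _ => by simp [c, d]⟩
    choose ξ hξ using h3
    refine ⟨fun i => if (p i).1 = 0 then κ (p i).2.1 else if (p i).1 = 1 then ξ (p i).2 else !ξ (p i).2,
      fun C hC hn ⟨b, hb⟩ => ?_⟩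
    have add : ∀ x ∈ K, (∀ i ∈ C, (p i).1 = 0 ∨ ((p i).1 = 1 ∧ (x = (p i).2.1 ∨ x = (p i).2.2.1))) →
        κ x = b := by
      rintro x ⟨j, hj, e⟩ h
      have : j ∈ C := hC.le_of_ge (y := insert j C) ⟨Set.insert_subset hj hC.prop.1,
        hC.prop.2.insert fun i hi n => by
          rw [pa, e]
          exact L5 (h i hi) (e ▸ pi.ne n)⟩ (Set.subset_insert _ _) (Set.mem_insert _ _)
      simpa [e] using hb j this
    have inK : ∀ i ∈ C, (p i).1 = 0 → (p i).2.1 ∈ K := fun i hi h =>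
      ⟨i, hC.prop.1 hi, ((hk i).resolve_right (by omega)).2⟩
    by_cases c : ∀ i ∈ C, (p i).1 = 0
    · obtain ⟨i, hi, j, hj, n⟩ := hn
      obtain ⟨z, hz, e⟩ := h2 _ (inK i hi (c i hi)) _ (inK j hj (c j hj)) (fun e => n (pi (by
        rw [((hk i).resolve_right (by have := c i hi; omega)).2,
          ((hk j).resolve_right (by have := c j hj; omega)).2, e]))) b
      exact e (add z hz fun i hi => Or.inl (c i hi))
    push Not at c
    obtain ⟨i, hi, c⟩ := c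
    obtain ⟨j, hj, n⟩ := hn.exists_ne i
    have a1 := (hk i).resolve_left (fun h => c h.1)
    have a2 := hξ _ a1.2
    have b1 := hb i hi
    have oth : ∀ k ∈ C, k ≠ i → (p k).1 = 0 ∧ (((p i).1 = 1 ∧ ((p k).2.1 = (p i).2.1 ∨
        (p k).2.1 = (p i).2.2.1)) ∨ ((p i).1 = 2 ∧ (p k).2.1 = (p i).2.2.2)) := by
      intro k hk' n
      have b2 := hb k hk'
      refine (L6 ((pa _ _).1 (hC.prop.2 hk' hi n)) c).resolve_right ?_
      rintro ⟨t1, t2 | t2⟩ <;> simp [t1, t2.1, t2.2] at b1 b2 <;> simp [b1] at b2 <;> simp [b2] at b1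
    have a3 := oth j hj n
    have a4 := inK j hj a3.1
    have b2 := hb j hj
    dsimp only at b1 b2
    rcases a1.1 with d | d
    · have a5 : ∀ x ∈ K, (x = (p i).2.1 ∨ x = (p i).2.2.1) → κ x = b := fun x hx h =>
        add x hx fun k hk' => by
          by_cases e : k = i
          · subst e; exact Or.inr ⟨d, h⟩
          · exact Or.inl (oth k hk' e).1
      simp only [d, one_ne_zero, if_false, if_true] at b1
      have a6 := (a3.2.resolve_right (by omega)).2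
      rcases a2.2 (by rcases a6 with h | h <;> rw [h] at a4 <;> simp [a4]) with t | t
      · exact t.2 ((a5 _ t.1 (Or.inl rfl)).trans b1.symm)
      · exact t.2 ((a5 _ t.1 (Or.inr rfl)).trans b1.symm)
    · have a6 := (a3.2.resolve_left (by omega)).2
      have a7 := a2.1 (a6 ▸ a4)
      simp [d, a3.1, a6, a7] at b1 b2
      simp [b2] at b1

abbrev F := List (List Lit)
def nv (φ : F) : ℕ := (φ.flatten.map fun l => l.1).sum + 1
def eds (φ : F) : List Ed :=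
  (φ.zipIdx.flatMap fun c => c.1.flatMap fun l =>
    [((0, c.2, 0, false), (3, l.1, 0, !l.2), (1, c.2, l.1, l.2)),
     ((0, c.2 + 1, 0, false), (0, c.2 + 1, 0, false), (1, c.2, l.1, l.2))]) ++
  ((0, φ.length, 0, false), (0, φ.length, 0, false), (2, 0, 0, false)) ::
  [true, false].flatMap fun s =>
    ((0, 0, 0, false), (0, 0, 0, false), (3, nv φ, 0, s)) ::
    (List.range (nv φ + 1)).flatMap fun i =>
      [((3, i, 0, s), (3, i, 0, s), (2, i, 0, false)), ((3, i, 0, s), (3, i, 0, s), (2, i + 1, 0, false))]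
def box (φ : F) : List Pt :=
  List.range 4 ×ˢ List.range (φ.length + nv φ + 2) ×ˢ List.range (nv φ) ×ˢ [true, false]
def red (φ : F) : ℕ × List (ℕ × ℕ) :=
  ((vs (box φ) (eds φ)).length, mkE (vs (box φ) (eds φ)) adj)

theorem red_pt : PT red := by
  have h0 : PT nv := by unfold nv; fun_prop
  have h1 : PT eds := by unfold eds; fun_prop
  have h2 : PT box := by unfold box; fun_prop
  have h3 : PT fun φ => vs (box φ) (eds φ) := by unfold vs; fun_prop
  exact h3.length.pair (PT.mkE (adj := fun _ => adj) h3 (by unfold adj; fun_prop))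

theorem lit_lt {φ : F} {c : List Lit} (h : c ∈ φ) {l : Lit} (hl : l ∈ c) : l.1 < nv φ := by
  have := List.single_le_sum (l := φ.flatten.map fun l => l.1) (by simp) _
    (List.mem_map_of_mem (List.mem_flatten.2 ⟨c, h, hl⟩))
  unfold nv; omega

theorem mem_eds (φ : F) (e : Ed) : e ∈ eds φ ↔
    (∃ j, ∃ h : j < φ.length, ∃ l ∈ φ[j],
      e = ((0, j, 0, false), (3, l.1, 0, !l.2), (1, j, l.1, l.2)) ∨
      e = ((0, j + 1, 0, false), (0, j + 1, 0, false), (1, j, l.1, l.2))) ∨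
    e = ((0, φ.length, 0, false), (0, φ.length, 0, false), (2, 0, 0, false)) ∨
    ∃ s, e = ((0, 0, 0, false), (0, 0, 0, false), (3, nv φ, 0, s)) ∨ ∃ i ≤ nv φ,
      e = ((3, i, 0, s), (3, i, 0, s), (2, i, 0, false)) ∨
      e = ((3, i, 0, s), (3, i, 0, s), (2, i + 1, 0, false)) := by
  simp only [eds, List.mem_append, List.mem_flatMap, List.mem_cons, List.not_mem_nil, or_false,
    List.mem_range, Nat.lt_succ_iff]
  refine or_congr ⟨?_, ?_⟩ (or_congr Iff.rfl (exists_congr fun s => by cases s <;> simp))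
  · rintro ⟨⟨c, j⟩, h, l, hl, e⟩
    rw [List.mem_zipIdx_iff_getElem?, List.getElem?_eq_some_iff] at h
    obtain ⟨a, b⟩ := h
    exact ⟨j, a, l, by rw [show φ[j] = c from b]; exact hl, e⟩
  · rintro ⟨j, h, l, hl, e⟩
    exact ⟨(φ[j], j), by rw [List.mem_zipIdx_iff_getElem?]; simp, l, hl, e⟩

theorem hb_iff (φ : F) : SAT φ ↔ ¬ HB (eds φ) := by
  classical
  constructor
  · rintro ⟨σ, hσ⟩ H
    obtain ⟨κ, h⟩ := H {x | (x.1 = 3 → x.2.2.2 = σ x.2.1) ∧ (x.1 = 1 → x.2.2.2 = σ x.2.2.1)}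
    simp only [mem_eds, Set.mem_ofPred_eq] at h
    have a : ∀ j ≤ φ.length, κ (0, j, 0, false) = κ (0, 0, 0, false) := by
      intro j
      induction j with
      | zero => simp
      | succ j ih =>
        intro hj
        obtain ⟨l, hl, e⟩ := hσ _ (List.getElem_mem (show j < φ.length from hj))
        have b1 := h _ (Or.inl ⟨j, hj, l, hl, Or.inl rfl⟩) (by simp [e]) (by simp)
        have b2 := h _ (Or.inl ⟨j, hj, l, hl, Or.inr rfl⟩) (by simp [e]) (by simp)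
        have := ih (by omega)
        simp [e] at b1 b2
        exact (b3 b2 b1).trans this
    have b : ∀ i ≤ nv φ, κ (3, i, 0, σ i) ≠ κ (2, i, 0, false) ∧
        κ (3, i, 0, σ i) ≠ κ (2, i + 1, 0, false) := fun i hi =>
      ⟨by simpa using h _ (Or.inr (Or.inr ⟨σ i, Or.inr ⟨i, hi, Or.inl rfl⟩⟩)) (by simp) (by simp),
       by simpa using h _ (Or.inr (Or.inr ⟨σ i, Or.inr ⟨i, hi, Or.inr rfl⟩⟩)) (by simp) (by simp)⟩
    have c : ∀ i ≤ nv φ, κ (2, i, 0, false) = κ (2, 0, 0, false) := by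
      intro i
      induction i with
      | zero => simp
      | succ i ih =>
        intro hi
        exact (b3 (b i (by omega)).2.symm (b i (by omega)).1.symm).trans (ih (by omega))
    have d1 := h _ (Or.inr (Or.inl rfl)) (by simp) (by simp)
    have d2 := h _ (Or.inr (Or.inr ⟨σ (nv φ), Or.inl rfl⟩)) (by simp) (by simp)
    simp at d1 d2
    rw [a _ le_rfl, ← c _ le_rfl] at d1
    exact d2 (b3 d1 (b _ le_rfl).1)
  · intro H
    by_contra hs
    refine H fun K => ?_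
    let C : ℕ → Prop := fun j => (0, 0, 0, false) ∈ K ∧ ∀ j' < j, ∃ l ∈ φ.getD j' [],
      (1, j', l.1, l.2) ∈ K ∧ (3, l.1, 0, !l.2) ∉ K ∧ (0, j' + 1, 0, false) ∈ K
    let D : ℕ → Prop := fun i => C φ.length ∧ ∀ i' < i, (2, i', 0, false) ∈ K ∧ ∃ s, (3, i', 0, s) ∈ K
    have C1 : ∀ j, C j → (0, j, 0, false) ∈ K := by
      rintro (_ | j) h
      · exact h.1
      · obtain ⟨_, _, _, _, a⟩ := h.2 j (by omega); exact a
    have C2 : ∀ j j', j ≤ j' → C j' → C j := fun j j' h a => ⟨a.1, fun k hk => a.2 k (by omega)⟩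
    have C3 : ∀ j (h : j < φ.length), ∀ l ∈ φ[j], C j → (1, j, l.1, l.2) ∈ K →
        (3, l.1, 0, !l.2) ∉ K → (0, j + 1, 0, false) ∈ K → C (j + 1) := by
      intro j h l hl a b c d
      refine ⟨a.1, fun k hk => ?_⟩
      by_cases e : k = j
      · subst e; exact ⟨l, by rwa [List.getD_eq_getElem _ _ h], b, c, d⟩
      · exact a.2 k (by omega)
    have D1 : ¬ D (nv φ + 1) := by
      rintro ⟨⟨-, a⟩, b⟩
      refine hs ⟨fun v => decide ((3, v, 0, true) ∈ K), fun c hc => ?_⟩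
      obtain ⟨j, hj, rfl⟩ := List.getElem_of_mem hc
      obtain ⟨⟨v, s⟩, hl, -, d, -⟩ := a j hj
      rw [List.getD_eq_getElem _ _ hj] at hl
      obtain ⟨-, s', e⟩ := b v (by have := lit_lt hc hl; omega)
      refine ⟨_, hl, ?_⟩
      cases s <;> cases s' <;> simp_all
    have D2 : ∀ i s, (2, i, 0, false) ∈ K → (3, i, 0, s) ∈ K → (D (i + 1) ↔ D i) := by
      intro i s a b
      refine ⟨fun h => ⟨h.1, fun k hk => h.2 k (by omega)⟩, fun h => ⟨h.1, fun k hk => ?_⟩⟩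
      by_cases e : k = i
      · subst e; exact ⟨a, s, b⟩
      · exact h.2 k (by omega)
    have D0 : D 0 ↔ C φ.length := by simp [D]
    have D3 : ∀ i, D i → C φ.length := fun i h => h.1
    have C0 : (0, 0, 0, false) ∈ K → C 0 := fun h => ⟨h, by simp⟩
    clear_value C D
    clear H hs
    refine ⟨fun x => if x.1 = 0 then decide (C x.2.1) else if x.1 = 1 then
      !decide (C x.2.1 ∧ (C (x.2.1 + 1) ∨ (3, x.2.2.1, 0, !x.2.2.2) ∉ K)) else if x.1 = 2 then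
      !decide (D x.2.1) else decide (D (x.2.1 + 1)), fun e he => ?_⟩
    rw [mem_eds] at he
    rcases he with ⟨j, h, l, hl, rfl | rfl⟩ | rfl | ⟨s, rfl | ⟨i, hi, rfl | rfl⟩⟩
    · have := C1 j
      have := D3 (l.1 + 1)
      have := C2 (j + 1) _ h
      have := C2 j _ h.le
      simp; grind
    · have := C3 j h l hl
      have := C2 j (j + 1) (by omega)
      simp; grind
    · simp [D0]
    · simp; grind
    · have := D2 i s
      simp; grind
    · simp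

theorem result : NPHard fun y : ℕ × List (ℕ × ℕ) => ¬ Strongly2Div (gr y.1 y.2) := by
  refine (hard_SAT.red red red_pt fun φ => ?_).npHard
  rw [hb_iff, red, graph]
  · exact List.nodup_range.product (List.nodup_range.product (List.nodup_range.product (by simp)))
  · simp [box, o, nv]
  · intro e he
    rw [mem_eds] at he
    have : 0 < nv φ := by unfold nv; omega
    rcases he with ⟨j, h, l, hl, rfl | rfl⟩ | rfl | ⟨s, rfl | ⟨i, hi, rfl | rfl⟩⟩
    · have := lit_lt (List.getElem_mem h) hl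
      obtain ⟨v, _ | _⟩ := l <;> simp [box] at this ⊢ <;> omega
    · have := lit_lt (List.getElem_mem h) hl
      obtain ⟨v, _ | _⟩ := l <;> simp [box] at this ⊢ <;> omega
    all_goals simp [box]; omega

end Pool.Agent.Results.MP_65ccf5_lc.CoNPHard
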